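import Mathlib

/-!
# Ratios of logarithmically convex sequences with a lower bound for one term
-/

namespace Pool.Agent.P8H28.DL

variable {α : ℕ → ℕ} {b e : ℕ}

lemma eta_at (hb : 0 < b) (h0 : α 0 ≤ b) (h2 : ∀ n, α (n + 1) ^ 2 ≤ α n * α (n + 2))
    (hpos : ∀ n, 0 < α n) (κ : ℕ) {M : ℕ} (hM : 0 < M) (h3 : b ^ (M + 1) ≤ α M * (M + 2) ^ e) :
    (b : ℝ) ^ (κ + 1) - (α (M + (κ + 1)) : ℝ) / α M ≤
      (κ + 1) * b ^ (κ + 1) * e * Real.log (M + 2) / M := by
  have hposR : ∀ n, (0 : ℝ) < α n := fun n => by exact_mod_cast hpos n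
  have hbR : (0 : ℝ) < b := by exact_mod_cast hb
  have hMR : (0 : ℝ) < M := by exact_mod_cast hM
  set ρ : ℕ → ℝ := fun n => (α (n + 1) : ℝ) / α n with hρ
  have hρ0 : ∀ n, 0 < ρ n := fun n => div_pos (hposR _) (hposR _)
  have hstep : ∀ n, (α (n + 1) : ℝ) = ρ n * α n := by
    intro n
    simp only [hρ]
    rw [div_mul_cancel₀ _ (hposR n).ne']
  have hmono : Monotone ρ := by
    apply monotone_nat_of_le_succ
    intro n
    simp only [hρ]
    rw [div_le_div_iff₀ (hposR n) (hposR (n + 1))]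
    have := h2 n
    have h4 : ((α (n + 1) : ℝ)) ^ 2 ≤ α n * α (n + 2) := by exact_mod_cast this
    nlinarith
  -- upper bound for `α M`
  have hup : ∀ n, n ≤ M → (α n : ℝ) ≤ α 0 * ρ M ^ n := by
    intro n
    induction n with
    | zero => intro _; simp
    | succ n ih =>
      intro hn
      rw [hstep n, pow_succ]
      calc ρ n * α n ≤ ρ M * (α 0 * ρ M ^ n) :=
            mul_le_mul (hmono (by omega)) (ih (by omega)) (hposR n).le (hρ0 M).le
        _ = _ := by ring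
  -- lower bound for `α (M + j)`
  have hlow : ∀ j, ρ M ^ j * α M ≤ α (M + j) := by
    intro j
    induction j with
    | zero => simp
    | succ j ih =>
      rw [show M + (j + 1) = (M + j) + 1 by ring, hstep (M + j), pow_succ]
      calc ρ M ^ j * ρ M * α M = ρ M * (ρ M ^ j * α M) := by ring
        _ ≤ ρ (M + j) * α (M + j) :=
            mul_le_mul (hmono (by omega)) ih (mul_nonneg (pow_nonneg (hρ0 M).le _) (hposR M).le)
              (hρ0 _).le
  set x : ℝ := ρ M / b with hx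
  have hx0 : 0 < x := div_pos (hρ0 M) hbR
  have hρx : ρ M = b * x := by rw [hx]; field_simp
  -- the lower bound for `x`
  have h5 : 1 ≤ x ^ M * ((M : ℝ) + 2) ^ e := by
    have h6 : (b : ℝ) ^ (M + 1) ≤ α M * ((M : ℝ) + 2) ^ e := by exact_mod_cast h3
    have h7 : (α 0 : ℝ) ≤ b := by exact_mod_cast h0
    have h8 : (b : ℝ) ^ (M + 1) ≤ b * (b * x) ^ M * ((M : ℝ) + 2) ^ e := by
      refine h6.trans (mul_le_mul_of_nonneg_right ?_ (by positivity))
      rw [← hρx]
      exact (hup M le_rfl).trans (mul_le_mul_of_nonneg_right h7 (pow_nonneg (hρ0 M).le _))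
    have h9 : b * (b * x) ^ M * ((M : ℝ) + 2) ^ e =
        (b : ℝ) ^ (M + 1) * (x ^ M * ((M : ℝ) + 2) ^ e) := by ring
    rw [h9] at h8
    have h10 : (0 : ℝ) < (b : ℝ) ^ (M + 1) := by positivity
    by_contra hcon
    push Not at hcon
    nlinarith
  have h6 : 0 ≤ M * Real.log x + e * Real.log ((M : ℝ) + 2) := by
    have h7 := Real.log_le_log one_pos h5
    rw [Real.log_one, Real.log_mul (pow_pos hx0 _).ne' (by positivity), Real.log_pow,
      Real.log_pow] at h7
    exact h7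
  have h7 : 1 - x ≤ e * Real.log ((M : ℝ) + 2) / M := by
    rw [le_div_iff₀ hMR]
    have h8 := Real.log_le_sub_one_of_pos hx0
    nlinarith
  -- Bernoulli
  have h8 : 1 - (κ + 1) * (1 - x) ≤ x ^ (κ + 1) := by
    have := one_add_mul_le_pow (a := x - 1) (by linarith) (κ + 1)
    rw [show 1 + (x - 1) = x by ring] at this
    push_cast at this
    linarith
  have h9 : (b : ℝ) ^ (κ + 1) * x ^ (κ + 1) ≤ (α (M + (κ + 1)) : ℝ) / α M := by
    rw [le_div_iff₀ (hposR M), ← mul_pow, ← hρx]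
    exact hlow (κ + 1)
  have hbk : (0 : ℝ) < (b : ℝ) ^ (κ + 1) := by positivity
  calc (b : ℝ) ^ (κ + 1) - (α (M + (κ + 1)) : ℝ) / α M
      ≤ (b : ℝ) ^ (κ + 1) - (b : ℝ) ^ (κ + 1) * x ^ (κ + 1) := by linarith
    _ = (b : ℝ) ^ (κ + 1) * (1 - x ^ (κ + 1)) := by ring
    _ ≤ (b : ℝ) ^ (κ + 1) * ((κ + 1) * (1 - x)) := by
        apply mul_le_mul_of_nonneg_left _ hbk.le
        linarith
    _ ≤ (b : ℝ) ^ (κ + 1) * ((κ + 1) * (e * Real.log ((M : ℝ) + 2) / M)) := by
        apply mul_le_mul_of_nonneg_left _ hbk.le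
        apply mul_le_mul_of_nonneg_left h7 (by positivity)
    _ = _ := by ring

end Pool.Agent.P8H28.DL
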