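import Mathlib

/-!
# The rate
-/

namespace Pool.Agent.P8H28.DL

/-- The numerical inequality. -/
lemma num_ineq {b M : ℕ} (hb : 0 < b) (hM : 0 < M) :
    720 * b ^ 4 * (M * (M + 1) * (M + 3) * b ^ (M + 5)) ≤ ((2 * b) ^ 14) ^ M := by
  have e1 : M ≤ 2 ^ M := Nat.lt_two_pow_self.le
  have e2 : M + 1 ≤ 2 ^ M := Nat.lt_two_pow_self
  have e3 : M + 3 ≤ 4 ^ M := by
    obtain ⟨t, rfl⟩ : ∃ t, M = t + 1 := ⟨M - 1, by omega⟩
    have h5 : t < 4 ^ t := Nat.lt_pow_self (by norm_num)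
    rw [pow_succ]
    omega
  have e4 : 720 ≤ 720 ^ M := by
    calc 720 = 720 ^ 1 := (pow_one _).symm
      _ ≤ 720 ^ M := Nat.pow_le_pow_right (by norm_num) hM
  have e5 : b ^ 4 * b ^ (M + 5) ≤ (b ^ 10) ^ M := by
    rw [← pow_add, ← pow_mul]
    exact Nat.pow_le_pow_right hb (by omega)
  calc 720 * b ^ 4 * (M * (M + 1) * (M + 3) * b ^ (M + 5)) =
      720 * (M * (M + 1) * (M + 3)) * (b ^ 4 * b ^ (M + 5)) := by ring
    _ ≤ 720 ^ M * (2 ^ M * 2 ^ M * 4 ^ M) * (b ^ 10) ^ M := by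
        refine Nat.mul_le_mul (Nat.mul_le_mul e4 ?_) e5
        exact Nat.mul_le_mul (Nat.mul_le_mul e1 e2) e3
    _ = (11520 * b ^ 10) ^ M := by
        rw [← mul_pow, ← mul_pow, ← mul_pow, ← mul_pow]
        norm_num
    _ ≤ ((2 * b) ^ 14) ^ M := by
        apply Nat.pow_le_pow_left
        rw [mul_pow]
        exact Nat.mul_le_mul (by norm_num) (Nat.pow_le_pow_right hb (by norm_num))

/-- The error term is at most `L / 2`. -/
lemma err_le {b κ L n : ℕ} (hb : 0 < b) (hL : 0 < L)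
    (h1 : (((2 * b) ^ 14) ^ (κ + 1)) ^ L ≤ n) (h2 : n < (((2 * b) ^ 14) ^ (κ + 1)) ^ (L + 1)) :
    ((3 * L * (L + 1) * (L * (κ + 1) + 3) * b ^ (L * (κ + 1) + 5) : ℕ) : ℝ) *
      Real.log (n + 2) / n ≤ L / 2 := by
  obtain ⟨K, hK⟩ : ∃ K : ℕ, K = (2 * b) ^ 14 := ⟨_, rfl⟩
  obtain ⟨M, hM⟩ : ∃ M : ℕ, M = L * (κ + 1) := ⟨_, rfl⟩
  have hLM : L ≤ M := by
    rw [hM]
    exact Nat.le_mul_of_pos_right L (by omega)
  have hM0 : 0 < M := by omega
  rw [← hK, ← pow_mul] at h1 h2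
  rw [← hM]
  have e1 : (κ + 1) * L = M := by rw [hM, mul_comm]
  have e2 : (κ + 1) * (L + 1) ≤ 2 * M := by
    have : κ + 1 ≤ L * (κ + 1) := Nat.le_mul_of_pos_left _ hL
    rw [← hM] at this
    calc (κ + 1) * (L + 1) = (κ + 1) * L + (κ + 1) := by ring
      _ ≤ M + M := by rw [e1]; omega
      _ = 2 * M := by ring
  rw [e1] at h1
  have hK1 : 1 < K := by
    rw [hK]
    exact Nat.one_lt_pow (by norm_num) (by omega)
  have h2' : n < K ^ (2 * M) := lt_of_lt_of_le h2 (Nat.pow_le_pow_right hK1.le e2)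
  have hKM : 1 ≤ K ^ M := Nat.one_le_pow _ _ hK1.le
  have hn1 : 1 ≤ n := le_trans hKM h1
  have hn : (0 : ℝ) < n := by exact_mod_cast hn1
  obtain ⟨s, hs⟩ : ∃ s : ℝ, s = 15 * (b : ℝ) ^ 4 := ⟨_, rfl⟩
  have hb1 : (1 : ℝ) ≤ b := by exact_mod_cast hb
  have hs0 : 0 < s := by rw [hs]; positivity
  have h3K : (3 : ℝ) * K ≤ s ^ 4 := by
    have e3 : 3 * K ≤ (15 * b ^ 4) ^ 4 := by
      rw [hK, mul_pow, mul_pow, ← pow_mul]
      calc 3 * (2 ^ 14 * b ^ 14) = (3 * 2 ^ 14) * b ^ 14 := by ring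
        _ ≤ 15 ^ 4 * b ^ (4 * 4) :=
          Nat.mul_le_mul (by norm_num) (Nat.pow_le_pow_right hb (by norm_num))
    rw [hs]
    exact_mod_cast e3
  have hLR : (0 : ℝ) ≤ L := Nat.cast_nonneg _
  have hMR : (1 : ℝ) ≤ M := by exact_mod_cast hM0
  -- the logarithm
  have hlog : Real.log ((n : ℝ) + 2) ≤ 8 * M * s := by
    have h3 : (n : ℝ) + 2 ≤ ((3 : ℝ) * K) ^ (2 * M) := by
      have h4 : n + 2 ≤ (3 * K) ^ (2 * M) := by
        have h5 : 3 ≤ 3 ^ (2 * M) := by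
          calc 3 = 3 ^ 1 := (pow_one _).symm
            _ ≤ 3 ^ (2 * M) := Nat.pow_le_pow_right (by norm_num) (by omega)
        rw [mul_pow]
        have h6 : 1 ≤ K ^ (2 * M) := Nat.one_le_pow _ _ hK1.le
        nlinarith
      exact_mod_cast h4
    have h4 : (n : ℝ) + 2 ≤ (s ^ 4) ^ (2 * M) :=
      h3.trans (pow_le_pow_left₀ (by positivity) h3K _)
    have h5 := Real.log_le_log (by positivity) h4
    rw [Real.log_pow, Real.log_pow] at h5
    have h6 := Real.log_le_sub_one_of_pos hs0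
    calc Real.log ((n : ℝ) + 2) ≤ ((2 * M : ℕ) : ℝ) * (((4 : ℕ) : ℝ) * Real.log s) := h5
      _ ≤ ((2 * M : ℕ) : ℝ) * (((4 : ℕ) : ℝ) * s) := by
          apply mul_le_mul_of_nonneg_left _ (Nat.cast_nonneg _)
          apply mul_le_mul_of_nonneg_left (by linarith) (by norm_num)
      _ = 8 * M * s := by push_cast; ring
  have key := num_ineq hb hM0
  rw [← hK] at key
  have key' : (720 : ℝ) * b ^ 4 * (M * (M + 1) * (M + 3) * b ^ (M + 5)) ≤ n := by
    exact_mod_cast key.trans h1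
  rw [div_le_iff₀ hn]
  have hC0 : (0 : ℝ) ≤ ((3 * L * (L + 1) * (M + 3) * b ^ (M + 5) : ℕ) : ℝ) := Nat.cast_nonneg _
  have hLM' : ((L : ℝ) + 1) ≤ M + 1 := by
    have : (L : ℝ) ≤ M := by exact_mod_cast hLM
    linarith
  calc ((3 * L * (L + 1) * (M + 3) * b ^ (M + 5) : ℕ) : ℝ) * Real.log ((n : ℝ) + 2)
      ≤ ((3 * L * (L + 1) * (M + 3) * b ^ (M + 5) : ℕ) : ℝ) * (8 * M * s) :=
        mul_le_mul_of_nonneg_left hlog hC0
    _ = ((L : ℝ) + 1) * (3 * L * (M + 3) * b ^ (M + 5) * (8 * M * s)) := by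
        push_cast
        ring
    _ ≤ ((M : ℝ) + 1) * (3 * L * (M + 3) * b ^ (M + 5) * (8 * M * s)) := by
        apply mul_le_mul_of_nonneg_right hLM'
        positivity
    _ = L / 2 * (720 * b ^ 4 * (M * (M + 1) * (M + 3) * b ^ (M + 5))) := by
        rw [hs]
        ring
    _ ≤ L / 2 * n := mul_le_mul_of_nonneg_left key' (by linarith)

/-- **The rate.** -/
lemma rate {b κ : ℕ} (hb : 0 < b) {r a : ℕ → ℕ} (hra : ∀ n, r n ≤ a n)
    (h : ∀ L n : ℕ, 0 < L → 0 < n →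
      ((L : ℝ) - ((3 * L * (L + 1) * (L * (κ + 1) + 3) * b ^ (L * (κ + 1) + 5) : ℕ) : ℝ) *
        Real.log (n + 2) / n) * r n ≤ a n) (n : ℕ) :
    Real.log (n + 1) * r n ≤ 56 * (κ + 1) * Real.log (2 * b) * a n := by
  obtain ⟨B, hB⟩ : ∃ B : ℕ, B = ((2 * b) ^ 14) ^ (κ + 1) := ⟨_, rfl⟩
  have hK1 : 1 < (2 * b) ^ 14 := Nat.one_lt_pow (by norm_num) (by omega)
  have hB1 : 1 < B := by
    rw [hB]
    exact Nat.one_lt_pow (by omega) hK1
  have hb1 : (1 : ℝ) ≤ b := by exact_mod_cast hb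
  have hlb : 0 ≤ Real.log (2 * (b : ℝ)) := Real.log_nonneg (by linarith)
  have hlogB : Real.log (B : ℝ) = 14 * (κ + 1) * Real.log (2 * b) := by
    rw [hB]
    push_cast
    rw [Real.log_pow, Real.log_pow]
    push_cast
    ring
  have hr0 : (0 : ℝ) ≤ r n := Nat.cast_nonneg _
  have ha0 : (0 : ℝ) ≤ a n := Nat.cast_nonneg _
  have hκ : (0 : ℝ) ≤ κ := Nat.cast_nonneg _
  rcases Nat.eq_zero_or_pos (Nat.log B n) with hL | hL
  · have h1 : n < B := by
      rcases Nat.log_eq_zero_iff.1 hL with h2 | h2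
      · exact h2
      · omega
    have h2 : Real.log ((n : ℝ) + 1) ≤ 14 * (κ + 1) * Real.log (2 * b) := by
      rw [← hlogB]
      apply Real.log_le_log (by positivity)
      exact_mod_cast h1
    have h3 : (r n : ℝ) ≤ a n := by exact_mod_cast hra n
    have h4 : (0 : ℝ) ≤ (κ + 1) * Real.log (2 * b) := mul_nonneg (by linarith) hlb
    calc Real.log ((n : ℝ) + 1) * r n ≤ 14 * (κ + 1) * Real.log (2 * b) * a n :=
          mul_le_mul h2 h3 hr0 (by nlinarith)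
      _ ≤ 56 * (κ + 1) * Real.log (2 * b) * a n := by
          apply mul_le_mul_of_nonneg_right _ ha0
          nlinarith
  · obtain ⟨L, hLe⟩ : ∃ L : ℕ, L = Nat.log B n := ⟨_, rfl⟩
    rw [← hLe] at hL
    have hn0 : n ≠ 0 := by
      rintro rfl
      rw [Nat.log_zero_right] at hLe
      omega
    have h1 : B ^ L ≤ n := by rw [hLe]; exact Nat.pow_log_le_self B hn0
    have h2 : n < B ^ (L + 1) := by rw [hLe]; exact Nat.lt_pow_succ_log_self hB1 n
    have h3 := h L n hL (by omega)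
    have h4 := err_le (κ := κ) (L := L) (n := n) hb hL (hB ▸ h1) (hB ▸ h2)
    have h5 : (L : ℝ) / 2 * r n ≤ a n := by
      refine le_trans (mul_le_mul_of_nonneg_right ?_ hr0) h3
      linarith
    have hLR : (1 : ℝ) ≤ L := by exact_mod_cast hL
    have h6 : Real.log ((n : ℝ) + 1) ≤ 2 * L * (14 * (κ + 1) * Real.log (2 * b)) := by
      have h7 : Real.log ((n : ℝ) + 1) ≤ Real.log ((B : ℝ) ^ (L + 1)) := by
        apply Real.log_le_log (by positivity)
        exact_mod_cast h2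
      rw [Real.log_pow, hlogB] at h7
      refine h7.trans (mul_le_mul_of_nonneg_right ?_ (by positivity))
      push_cast
      linarith
    calc Real.log ((n : ℝ) + 1) * r n
        ≤ 2 * L * (14 * (κ + 1) * Real.log (2 * b)) * r n := mul_le_mul_of_nonneg_right h6 hr0
      _ = 56 * (κ + 1) * Real.log (2 * b) * ((L : ℝ) / 2 * r n) := by ring
      _ ≤ 56 * (κ + 1) * Real.log (2 * b) * a n :=
          mul_le_mul_of_nonneg_left h5 (by positivity)

end Pool.Agent.P8H28.DL
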