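import Pool.Agent.P8H28.DL.Num
import Pool.Agent.P8H28.DL.Rate
import Pool.Agent.Y133.Half.DLaw

/-!
# The effective law for conjecture D
-/

set_option linter.unusedSectionVars false

open CategoryTheory AlgebraicGeometry

universe u v

namespace Pool.Agent.P8H28.DL

open Module
open Pool.Agent.H914 Pool.Agent.H914.VarClass Pool.Agent.H914.VarClass.Obj
  Pool.Agent.H914.WeilCohomology Pool.Agent.H281R3.HT
open Pool.Agent.Y133.Half

variable {k : Type u} [Field k] {𝒱 : VarClass k} {ops : CycleOps 𝒱}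

lemma homEqNum_of (W : WeilCohomology.{u, v} ops) {Y : 𝒱.Obj} (h : (algSys W).Num Y = ⊥) :
    HomEqNum W Y := by
  apply Pool.Agent.Y129.homEqNum_of_algSpan
  intro c hc hc'
  have h1 : c ∈ (algSys W).Num Y := mem_algNum.2 ⟨hc, hc'⟩
  rw [h, Submodule.mem_bot] at h1
  exact h1

/-- **The effective one percent law for conjecture D.** -/
theorem d_eff (W : WeilCohomology.{u, v} ops) (X : 𝒱.Obj) (κ L C : ℕ) (hL : 0 < L)
    (hC : C = 3 * L * (L + 1) * (L * (κ + 1) + 3) *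
      finrank W.K (W.H X) ^ (L * (κ + 1) + 5)) :
    HomEqNum W (pw X κ) ∨ ∀ n : ℕ, 0 < n →
      ((L : ℝ) - C * Real.log (n + 2) / n) * cycRank ops (pw X n) ≤ algDim W (pw X n) := by
  rcases num_eff (S := algSys W) (T := algSys W) (fun _ => le_rfl) X κ L C hL hC with h | h
  · exact Or.inl (homEqNum_of W h)
  · right
    intro n hn
    have h1 := h n hn
    rw [numDim_eq_cycRank] at h1
    rw [algDim_eq]
    exact h1

/-! ### All varieties -/

lemma dim_pw (Y : 𝒱.Obj) (n : ℕ) : (pw Y n).dim = (n + 1) * Y.dim := by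
  induction n with
  | zero => rw [zero_add, one_mul]; rfl
  | succ n ih =>
    have h1 : (pw Y (n + 1)).dim = (pw Y n).dim + Y.dim := dim_prod _ _
    rw [h1, ih]
    ring

lemma algDim_pos (W : WeilCohomology.{u, v} ops) {Y : 𝒱.Obj} (h : (1 : W.H Y) ≠ 0) :
    1 ≤ algDim W Y := by
  rw [algDim_eq]
  have h1 : (1 : W.H Y) ∈ (algSys W).C Y := (algSys W).one Y
  have : Nontrivial ((algSys W).C Y) :=
    ⟨⟨⟨1, h1⟩, 0, fun e => h (congrArg Subtype.val e)⟩⟩
  exact Module.finrank_pos (R := W.K) (M := (algSys W).C Y)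

/-- Conjecture D holds in dimension zero. -/
lemma homEqNum_zero (W : WeilCohomology.{u, v} ops) {Y : 𝒱.Obj} (hY : Y.dim = 0) :
    HomEqNum W Y := by
  intro j hj z hz h
  have hj0 : j = 0 := by omega
  subst hj0
  have hspan : ∀ b : W.H Y, b ∈ W.gr Y 0 := by
    intro b
    have h1 : b ∈ (⨆ i, W.gr Y i) := by
      rw [(W.isInternal Y).submodule_iSup_eq_top]
      exact Submodule.mem_top
    have h2 : (⨆ i, W.gr Y i) ≤ W.gr Y 0 := by
      refine iSup_le fun i => ?_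
      rcases Nat.eq_zero_or_pos i with hi | hi
      · rw [hi]
      · rw [W.gr_eq_bot Y i (by rw [hY]; omega)]
        exact bot_le
    exact h2 h1
  have hfund := h Y.V.fundCycle (by rw [hY]; exact SmVar.fundCycle_mem _)
  have hz1 : Y.IsCyc Y.dim (ops.mul z Y.V.fundCycle) := by
    rw [hY]
    exact ops.mul_mem hz (SmVar.fundCycle_mem _)
  have htr : W.tr Y (W.cl Y z) = 0 := by
    have h1 := W.tr_cl hz1
    rw [W.cl_mul, W.cl_fund, mul_one] at h1
    rw [h1, hfund, Rat.cast_zero]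
  apply W.nondeg
  intro b
  have hb := hspan b
  rw [W.gr_zero, Submodule.mem_span_singleton] at hb
  obtain ⟨β, rfl⟩ := hb
  rw [mul_smul_comm, mul_one, map_smul, htr, smul_zero]

lemma cycRank_le (W : WeilCohomology.{u, v} ops) (Y : 𝒱.Obj) : cycRank ops Y ≤ algDim W Y := by
  have h1 := (algSys W).a_add_num Y
  have h2 : (algSys W).C Y = algSpan W Y := rfl
  rw [numDim_eq_cycRank, h2] at h1
  rw [algDim_eq]
  omega

/-- **The rate.** -/
theorem d_rate (W : WeilCohomology.{u, v} ops) (X : 𝒱.Obj) (κ b : ℕ)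
    (hb : b = finrank W.K (W.H X)) :
    HomEqNum W (pw X κ) ∨ ∀ n : ℕ, Real.log (n + 1) * cycRank ops (pw X n) ≤
      56 * (κ + 1) * Real.log (2 * b) * algDim W (pw X n) := by
  by_cases hD : HomEqNum W (pw X κ)
  · exact Or.inl hD
  right
  have hb0 : 0 < b := by
    rw [Nat.pos_iff_ne_zero]
    intro h0
    apply hD
    intro j _ z _ _
    have h1 : finrank W.K (W.H (pw X κ)) = 0 := by
      rw [finrank_pw, ← hb, h0, zero_pow (by omega)]
    have : Subsingleton (W.H (pw X κ)) := Module.finrank_zero_iff.1 h1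
    exact Subsingleton.elim _ _
  apply rate hb0 (fun n => cycRank_le W (pw X n))
  intro L n hL hn
  rw [hb]
  exact (d_eff W X κ L _ hL rfl).resolve_left hD n hn

open Filter in
/-- **The criterion for all varieties.** -/
theorem d_all (W : WeilCohomology.{u, v} ops) (f : ℕ → ℝ)
    (hf : Tendsto (fun d => f d * Real.log d) atTop atTop) (d₀ : ℕ)
    (h : ∀ Y : 𝒱.Obj, d₀ ≤ Y.dim → f Y.dim * algDim W Y ≤ cycRank ops Y) (Y : 𝒱.Obj) :
    HomEqNum W Y := by
  rcases Nat.eq_zero_or_pos Y.dim with hY | hY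
  · exact homEqNum_zero W hY
  by_contra hD
  have hne : (1 : W.H Y) ≠ 0 := by
    intro h0
    apply hD
    intro j _ z _ _
    rw [← mul_one (W.cl Y z), h0, mul_zero]
  have hX : 0 < finrank W.K (W.H Y) := by
    have : Nontrivial (W.H Y) := ⟨⟨1, 0, hne⟩⟩
    exact Module.finrank_pos
  obtain ⟨c, hc⟩ : ∃ c : ℝ, c = 56 * ((0 : ℕ) + 1) * Real.log (2 * finrank W.K (W.H Y)) :=
    ⟨_, rfl⟩
  have hc0 : 0 ≤ c := by
    have : (1 : ℝ) ≤ finrank W.K (W.H Y) := by exact_mod_cast hX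
    rw [hc]
    exact mul_nonneg (by norm_num) (Real.log_nonneg (by linarith))
  obtain ⟨D₁, hD₁⟩ := (hf.eventually_ge_atTop (2 * c + 1)).exists_forall_of_atTop
  obtain ⟨n, hn⟩ : ∃ n : ℕ, n = D₁ + d₀ + Y.dim := ⟨_, rfl⟩
  have hdim : (pw Y n).dim = (n + 1) * Y.dim := dim_pw Y n
  have hle : n + 1 ≤ (n + 1) * Y.dim := Nat.le_mul_of_pos_right _ hY
  have h1 := h (pw Y n) (by rw [hdim]; omega)
  have h2 := hD₁ ((n + 1) * Y.dim) (by omega)
  rw [hdim] at h1
  have h3 := (d_rate W Y 0 _ rfl).resolve_left hD n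
  rw [← hc] at h3
  have hnt : Nontrivial (W.H (pw Y n)) := by
    apply Module.nontrivial_of_finrank_pos (R := W.K)
    rw [finrank_pw]
    exact Nat.pow_pos hX
  have ha : (1 : ℝ) ≤ algDim W (pw Y n) := by exact_mod_cast algDim_pos W one_ne_zero
  have hlogn : 0 ≤ Real.log ((n : ℝ) + 1) := Real.log_nonneg (by
    have : (0 : ℝ) ≤ n := Nat.cast_nonneg _
    linarith)
  obtain ⟨φ, hφ⟩ : ∃ φ : ℝ, φ = f ((n + 1) * Y.dim) := ⟨_, rfl⟩
  rw [← hφ] at h1 h2
  have h4 : φ * Real.log ((n : ℝ) + 1) ≤ c := by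
    have h5 : φ * Real.log ((n : ℝ) + 1) * algDim W (pw Y n) ≤ c * algDim W (pw Y n) := by
      calc φ * Real.log ((n : ℝ) + 1) * algDim W (pw Y n) =
          Real.log ((n : ℝ) + 1) * (φ * algDim W (pw Y n)) := by ring
        _ ≤ Real.log ((n : ℝ) + 1) * cycRank ops (pw Y n) := mul_le_mul_of_nonneg_left h1 hlogn
        _ ≤ _ := h3
    exact le_of_mul_le_mul_right h5 (by linarith)
  have hlog2 : 0 ≤ Real.log (((n + 1) * Y.dim : ℕ) : ℝ) := Real.log_natCast_nonneg _
  have hfpos : 0 < φ := by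
    by_contra hneg
    push Not at hneg
    have := mul_nonpos_of_nonpos_of_nonneg hneg hlog2
    linarith
  have h6 : Real.log (((n + 1) * Y.dim : ℕ) : ℝ) ≤ 2 * Real.log ((n : ℝ) + 1) := by
    have h7 : (n + 1) * Y.dim ≤ (n + 1) ^ 2 := by
      rw [sq]
      exact Nat.mul_le_mul_left _ (by omega)
    have h8 : (((n + 1) * Y.dim : ℕ) : ℝ) ≤ ((n : ℝ) + 1) ^ 2 := by exact_mod_cast h7
    have h9 := Real.log_le_log (by
      have : 0 < (n + 1) * Y.dim := by positivity
      exact_mod_cast this) h8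
    rw [Real.log_pow] at h9
    exact_mod_cast h9
  have h10 : φ * Real.log (((n + 1) * Y.dim : ℕ) : ℝ) ≤ 2 * c := by
    calc φ * Real.log (((n + 1) * Y.dim : ℕ) : ℝ) ≤ φ * (2 * Real.log ((n : ℝ) + 1)) :=
          mul_le_mul_of_nonneg_left h6 hfpos.le
      _ = 2 * (φ * Real.log ((n : ℝ) + 1)) := by ring
      _ ≤ 2 * c := by linarith
  linarith

end Pool.Agent.P8H28.DL
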