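import Pool.Agent.P8H28.DL.Units

/-!
# The effective law for numerical equivalence
-/

set_option linter.unusedSectionVars false

open CategoryTheory AlgebraicGeometry

universe u v

namespace Pool.Agent.P8H28.DL

open Module
open Pool.Agent.H914 Pool.Agent.H914.VarClass Pool.Agent.H914.VarClass.Obj
  Pool.Agent.H914.WeilCohomology
open Pool.Agent.Y133.Half Pool.Agent.Y133.Half.Sys

variable {k : Type u} [Field k] {𝒱 : VarClass k} {ops : CycleOps 𝒱}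
  {W : WeilCohomology.{u, v} ops} {S T : Sys W} {P P₀ Q Z X : 𝒱.Obj}

lemma one_le_log {n : ℕ} (hn : 0 < n) : 1 ≤ Real.log ((n : ℝ) + 2) := by
  have h1 : Real.exp 1 ≤ (n : ℝ) + 2 := by
    have h2 := Real.exp_one_lt_d9
    have h3 : (1 : ℝ) ≤ n := by exact_mod_cast hn
    linarith
  have h2 := Real.log_le_log (Real.exp_pos 1) h1
  rwa [Real.log_exp] at h2

lemma coef_small {n C L : ℕ} (hn0 : 0 < n) (hn : n ≤ 3) (hC : 3 * L ≤ C)
    {a h : ℕ} : ((L : ℝ) - C * Real.log (n + 2) / n) * a ≤ h := by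
  have h1 := one_le_log hn0
  have hn' : (0 : ℝ) < n := by exact_mod_cast hn0
  have hn3 : (n : ℝ) ≤ 3 := by exact_mod_cast hn
  have hC' : (3 : ℝ) * L ≤ C := by exact_mod_cast hC
  have hL : (0 : ℝ) ≤ L := Nat.cast_nonneg _
  have h2 : (L : ℝ) ≤ C * Real.log (n + 2) / n := by
    rw [le_div_iff₀ hn']
    nlinarith
  have h3 : (L : ℝ) - C * Real.log (n + 2) / n ≤ 0 := by linarith
  exact (mul_nonpos_of_nonpos_of_nonneg h3 (Nat.cast_nonneg _)).trans (Nat.cast_nonneg _)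

/-- The powers with long descending sequences. -/
lemma desc_pw (hST : ∀ X, S.C X ≤ T.C X) (h1 : (1 : W.H X) ≠ 0) {q : ℕ}
    {z : W.H (pw X q)} (hz : z ∈ S.Num (pw X q)) (hz0 : z ≠ 0) {l : W.H (pw X q)}
    (hl : l ∈ S.C (pw X q)) (hl1 : W.tr (pw X q) l = 1) (N : ℕ) :
    ∃ P : 𝒱.Obj, Nonempty (P ≅ pw X (N * (q + 1))) ∧ Desc S T P N := by
  induction N with
  | zero =>
    refine ⟨X, ⟨eqToIso ?_⟩, Desc.zero h1⟩
    rw [Nat.zero_mul]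
    rfl
  | succ N ih =>
    obtain ⟨P, ⟨θ⟩, hP⟩ := ih
    refine ⟨P.prod (pw X q), ⟨prodCongr θ (Iso.refl _) ≪≫ pwAdd X _ q ≪≫
      eqToIso (congrArg (pw X) ?_)⟩, hP.succ hST hz hz0 hl hl1⟩
    ring

lemma desc_par (hST : ∀ X, S.C X ≤ T.C X) (h1 : (1 : W.H X) ≠ 0) {q : ℕ}
    {z : W.H (pw X q)} (hz : z ∈ S.Num (pw X q)) (hz0 : z ≠ 0) {l : W.H (pw X q)}
    (hl : l ∈ S.C (pw X q)) (hl1 : W.tr (pw X q) l = 1) (N p : ℕ) :
    ∃ (m : ℕ) (P : 𝒱.Obj), m % 2 = p % 2 ∧ m ≤ N * (q + 1) + 1 ∧ Nonempty (P ≅ pw X m) ∧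
      Desc S T P N := by
  obtain ⟨P, ⟨θ⟩, hP⟩ := desc_pw hST h1 hz hz0 hl hl1 N
  by_cases h : (N * (q + 1)) % 2 = p % 2
  · exact ⟨_, P, h, by omega, ⟨θ⟩, hP⟩
  · exact ⟨_, P.prod X, by omega, le_rfl, ⟨prodCongr θ (Iso.refl _) ≪≫ pwAdd X _ 0⟩, hP.prod h1⟩

lemma const_le {b L j M : ℕ} (hb : 0 < b) (hj : 2 * j ≤ M) :
    5 * L * j * b ^ (2 * j) * ((L + 1) * b ^ 2) ≤ 3 * L * (L + 1) * M * b ^ (M + 2) := by
  have h1 : b ^ (2 * j) * b ^ 2 ≤ b ^ (M + 2) := by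
    rw [← pow_add]
    exact Nat.pow_le_pow_right hb (by omega)
  calc 5 * L * j * b ^ (2 * j) * ((L + 1) * b ^ 2) =
        L * (L + 1) * (5 * j) * (b ^ (2 * j) * b ^ 2) := by ring
    _ ≤ L * (L + 1) * (3 * M) * b ^ (M + 2) := by
        refine Nat.mul_le_mul (Nat.mul_le_mul_left _ ?_) h1
        omega
    _ = _ := by ring

/-- **The effective zero-infinity law for numerical equivalence.** -/
theorem num_eff (hST : ∀ X, S.C X ≤ T.C X) (X : 𝒱.Obj) (κ L C : ℕ) (hL : 0 < L)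
    (hC : C = 3 * L * (L + 1) * (L * (κ + 1) + 3) *
      finrank W.K (W.H X) ^ (L * (κ + 1) + 5)) :
    S.Num (pw X κ) = ⊥ ∨ ∀ n : ℕ, 0 < n →
      ((L : ℝ) - C * Real.log (n + 2) / n) * S.a (pw X n) ≤ finrank W.K (T.C (pw X n)) := by
  by_cases hN : S.Num (pw X κ) = ⊥
  · exact Or.inl hN
  right
  intro n hn
  by_cases hZ : ∀ l ∈ S.C X, W.tr X l = 0
  · rw [S.a_eq_zero_of hZ n, Nat.cast_zero, mul_zero]
    exact Nat.cast_nonneg _
  push Not at hZ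
  obtain ⟨l', hl', hl'0⟩ := hZ
  obtain ⟨l, hl, hl1⟩ : ∃ l ∈ S.C X, W.tr X l = 1 :=
    ⟨(W.tr X l')⁻¹ • l', Submodule.smul_mem _ _ hl', by
      rw [map_smul, smul_eq_mul, inv_mul_cancel₀ hl'0]⟩
  have h1 : (1 : W.H X) ≠ 0 := one_ne_zero_of (ne_zero_of_tr hl1)
  have hX : 0 < finrank W.K (W.H X) := by
    have : Nontrivial (W.H X) := ⟨⟨1, 0, h1⟩⟩
    exact Module.finrank_pos
  have hpos : ∀ n, 0 < S.al X n := by
    intro n
    obtain ⟨m, hm, hm1⟩ := S.exists_lam hl hl1 n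
    refine S.a_pos (xp_mem_C S hm hm) ?_
    rw [tr_xp, hm1, mul_one]
  set b := finrank W.K (W.H X) with hb
  have hb1 : 1 ≤ b ^ (L * (κ + 1) + 5) := Nat.one_le_pow _ _ hX
  rcases Nat.lt_or_ge 3 n with h3 | h3
  swap
  · refine coef_small hn h3 ?_
    rw [hC]
    calc 3 * L = 3 * L * 1 * 1 * 1 := by ring
      _ ≤ _ := by
        refine Nat.mul_le_mul (Nat.mul_le_mul (Nat.mul_le_mul_left _ ?_) ?_) hb1 <;> omega
  obtain ⟨m₀, i, hm₀, hi, hni⟩ : ∃ m₀ i, m₀ ≤ 1 ∧ 0 < i ∧ n = m₀ + (i + i + 1) + 1 :=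
    ⟨n % 2, (n - n % 2 - 2) / 2, by omega, by omega, by omega⟩
  obtain ⟨N, rfl⟩ : ∃ N, L = N + 1 := ⟨L - 1, by omega⟩
  by_cases hg : (b ^ 2) ^ (i + 1) ≤ S.al X i * (i + 2) ^ ((N + 1 + 1) * b ^ 2)
  · obtain ⟨z, hz, hz0⟩ := Submodule.exists_mem_ne_zero_of_ne_bot hN
    obtain ⟨y, hy, hy1⟩ := S.exists_lam hl hl1 κ
    obtain ⟨m, P, hmp, hmle, ⟨θ⟩, hP⟩ := desc_par hST h1 hz hz0 hy hy1 N m₀
    obtain ⟨j, hj⟩ : ∃ j, m + m₀ + 2 = 2 * j := ⟨(m + m₀ + 2) / 2, by omega⟩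
    have h4 := units hX hpos hST hj hi hni θ hP hg
    refine concl (S := S) hX hm₀ hi hni ?_ h4
    rw [hC, ← hb]
    have h5 : 2 * j ≤ (N + 1) * (κ + 1) + 3 := by
      have : (N + 1) * (κ + 1) = N * (κ + 1) + (κ + 1) := by ring
      omega
    exact const_le hX h5
  · push Not at hg
    have h4 := small (T := T) (S := S) (L := N + 1) hX hm₀ hni hg
    have h5 : ((N + 1 : ℕ) : ℝ) * S.a (pw X n) ≤ finrank W.K (T.C (pw X n)) := by
      exact_mod_cast h4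
    refine le_trans (mul_le_mul_of_nonneg_right ?_ (Nat.cast_nonneg _)) h5
    have h6 := one_le_log hn
    have h7 : 0 ≤ (C : ℝ) * Real.log (n + 2) / n := by positivity
    linarith

end Pool.Agent.P8H28.DL
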