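import Pool.Agent.P8H28.AT.Low
import Pool.Agent.P8H28.DL.Eta
import Pool.Agent.Y133.Half.Main2

/-!
# The contributions of the steps of a chain
-/

set_option linter.unusedSectionVars false

open CategoryTheory AlgebraicGeometry

universe u v

namespace Pool.Agent.P8H28.DL

open Module
open Pool.Agent.H914 Pool.Agent.H914.VarClass Pool.Agent.H914.VarClass.Obj
  Pool.Agent.H914.WeilCohomology
open Pool.Agent.Y133.Half Pool.Agent.Y133.Half.Sys
open Pool.Agent.P8H28.AT (a_le_H a_up C_eq log_le)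

variable {k : Type u} [Field k] {𝒱 : VarClass k} {ops : CycleOps 𝒱}
  {W : WeilCohomology.{u, v} ops} {S T : Sys W} {P P₀ Q Z X : 𝒱.Obj}

/-- The error term. -/
noncomputable def er (b j e l : ℕ) : ℝ := j * ((b : ℝ) ^ 2) ^ j * e * Real.log (l + 2) / l

lemma er_nonneg (b j e l : ℕ) : 0 ≤ er b j e l := by
  unfold er
  have : 0 ≤ Real.log ((l : ℝ) + 2) := Real.log_nonneg (by
    have : (0 : ℝ) ≤ l := Nat.cast_nonneg _
    linarith)
  positivity

section

variable (hX : 0 < finrank W.K (W.H X)) (hpos : ∀ n, 0 < S.al X n)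

include hX hpos

/-- The ratios of the sequence. -/
lemma al_ratio {j : ℕ} (hj : 0 < j) {l e : ℕ} (hl : 0 < l)
    (hg : (finrank W.K (W.H X) ^ 2) ^ (l + 1) ≤ S.al X l * (l + 2) ^ e) :
    (((finrank W.K (W.H X) : ℝ) ^ 2) ^ j - er (finrank W.K (W.H X)) j e l) * S.al X l ≤
      S.al X (l + j) := by
  obtain ⟨κ, rfl⟩ : ∃ κ, j = κ + 1 := ⟨j - 1, by omega⟩
  set b := finrank W.K (W.H X) with hb
  have h0 : S.al X 0 ≤ b ^ 2 := by
    refine (a_le_H _).trans (le_of_eq ?_)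
    rw [Pool.Agent.Y133.Half.finrank_prod, finrank_pw]
    ring
  have hconv : ∀ n, S.al X (n + 1) ^ 2 ≤ S.al X n * S.al X (n + 2) := by
    intro n
    rw [mul_comm]
    exact S.al_convex X n
  have hb2 : 0 < b ^ 2 := by positivity
  have h := eta_at (α := S.al X) (b := b ^ 2) (e := e) hb2 h0 hconv hpos κ hl hg
  have hpos' : (0 : ℝ) < S.al X l := by exact_mod_cast hpos l
  have h6 : er b (κ + 1) e l =
      (κ + 1) * ((b ^ 2 : ℕ) : ℝ) ^ (κ + 1) * (e : ℝ) * Real.log (l + 2) / l := by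
    unfold er
    push_cast
    ring
  rw [← h6] at h
  push_cast at h
  have h7 : ((b : ℝ) ^ 2) ^ (κ + 1) - er b (κ + 1) e l ≤ (S.al X (l + (κ + 1)) : ℝ) / S.al X l := by
    linarith
  rwa [le_div_iff₀ hpos'] at h7

/-- The contribution of an idempotent. -/
lemma r_real {m m₀ j : ℕ} (hj : m + m₀ + 2 = 2 * j) (θ : P ≅ pw X m)
    {g : Module.End W.K (W.H P)} (hg : g ∈ S.Op P P) (hgg : g ∘ₗ g = g) (h0 : g ≠ 0)
    {l e : ℕ} (hl : 0 < l)
    (hgr : (finrank W.K (W.H X) ^ 2) ^ (l + 1) ≤ S.al X l * (l + 2) ^ e) :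
    ((finrank W.K (W.H X) : ℝ) ^ (m₀ + 1) - er (finrank W.K (W.H X)) j e l) * S.al X l ≤
      S.r P g ((pw X m₀).prod ((pw X l).prod (pw X l))) := by
  have h1 := S.r_lower (P₀ := pw X m₀) hg hgg h0 (pw X l)
  have haP : S.a ((P.prod (pw X m₀)).prod ((pw X l).prod (pw X l))) = S.al X (l + j) := by
    rw [S.a_iso (prodCongr (prodCongr θ (Iso.refl _) ≪≫ pwAdd X m m₀) (Iso.refl _))]
    exact S.a_pw X (by omega)
  have hal : S.a ((pw X l).prod (pw X l)) = S.al X l := rfl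
  rw [haP, finrank_iso θ, finrank_pw, finrank_pw, hal] at h1
  have h2 := al_ratio (S := S) (X := X) hX hpos (j := j) (by omega) hl hgr
  set b := finrank W.K (W.H X) with hb
  have h3 : (S.al X (l + j) : ℝ) + (b : ℝ) ^ (m₀ + 1) *
      S.al X l ≤ S.r P g ((pw X m₀).prod ((pw X l).prod (pw X l))) +
        (b : ℝ) ^ (m + 1) * (b : ℝ) ^ (m₀ + 1) * S.al X l := by exact_mod_cast h1
  have h4 : (b : ℝ) ^ (m + 1) * (b : ℝ) ^ (m₀ + 1) = ((b : ℝ) ^ 2) ^ j := by
    rw [← pow_add, ← pow_mul]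
    congr 1
    omega
  rw [h4] at h3
  nlinarith

/-- The contributions of a descending sequence. -/
theorem units (hST : ∀ X, S.C X ≤ T.C X) {m m₀ j l n N e : ℕ} (hj : m + m₀ + 2 = 2 * j)
    (hl : 0 < l) (hn : n = m₀ + (l + l + 1) + 1) (θ : P ≅ pw X m) (hP : Desc S T P N)
    (hgr : (finrank W.K (W.H X) ^ 2) ^ (l + 1) ≤ S.al X l * (l + 2) ^ e) :
    ((N + 1 : ℕ) : ℝ) * ((finrank W.K (W.H X) : ℝ) ^ (m₀ + 1) -
      er (finrank W.K (W.H X)) j e l) * S.al X l ≤ finrank W.K (T.C (pw X n)) := by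
  set Z := (pw X m₀).prod ((pw X l).prod (pw X l)) with hZ
  set b := finrank W.K (W.H X) with hb
  by_cases hnil : ∀ x ∈ S.NOp P P, IsNilpotent x
  · obtain ⟨M, hM, hlt, hMT⟩ := hP.chain hST hnil
    obtain ⟨g, hg, hs⟩ := S.key_chain hST P Z M hM (N + 1) hlt hMT
    rw [hZ, C_eq T hn, ← hZ] at hs
    have hr : ∀ i ∈ Finset.range (N + 1), ((b : ℝ) ^ (m₀ + 1) - er b j e l) * S.al X l ≤
        S.r P (g i) Z := by
      intro i hi
      obtain ⟨h1, h2, h3⟩ := hg i (Finset.mem_range.1 hi)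
      exact r_real hX hpos hj θ h1 h2 h3 hl hgr
    calc ((N + 1 : ℕ) : ℝ) * ((b : ℝ) ^ (m₀ + 1) - er b j e l) * S.al X l
        = ∑ i ∈ Finset.range (N + 1), ((b : ℝ) ^ (m₀ + 1) - er b j e l) * S.al X l := by
          rw [Finset.sum_const, Finset.card_range, nsmul_eq_mul, mul_assoc]
      _ ≤ ∑ i ∈ Finset.range (N + 1), (S.r P (g i) Z : ℝ) := Finset.sum_le_sum hr
      _ ≤ _ := by exact_mod_cast hs
  · push Not at hnil
    obtain ⟨x, hx, hxn⟩ := hnil
    obtain ⟨g, hg, hgg, h0, hr⟩ := S.exists_idem hx hxn Z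
    have h1 := r_real hX hpos hj θ hg hgg h0 hl hgr
    rw [← hZ, hr, Nat.cast_zero] at h1
    rw [mul_assoc]
    exact (mul_nonpos_of_nonneg_of_nonpos (Nat.cast_nonneg _) h1).trans (Nat.cast_nonneg _)

end

/-- **The conclusion** from the sum of the contributions. -/
theorem concl (hX : 0 < finrank W.K (W.H X)) {t L c : ℕ} {j m₀ l n e : ℕ} (hm₀ : m₀ ≤ 1)
    (hl : 0 < l) (hn : n = m₀ + (l + l + 1) + 1)
    (hc : 5 * L * j * finrank W.K (W.H X) ^ (2 * j) * e ≤ c)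
    (h : (L : ℝ) * ((finrank W.K (W.H X) : ℝ) ^ (m₀ + 1) - er (finrank W.K (W.H X)) j e l) *
      S.al X l ≤ t) :
    ((L : ℝ) - c * Real.log (n + 2) / n) * S.a (pw X n) ≤ t := by
  set b := finrank W.K (W.H X) with hb
  have hb1 : (1 : ℝ) ≤ b := by exact_mod_cast hX
  have hb2 : (1 : ℝ) ≤ (b : ℝ) ^ (m₀ + 1) := one_le_pow₀ hb1
  have ha : (S.a (pw X n) : ℝ) ≤ (b : ℝ) ^ (m₀ + 1) * S.al X l := by exact_mod_cast a_up hn
  have hL : (0 : ℝ) ≤ L := Nat.cast_nonneg _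
  have hal : (0 : ℝ) ≤ S.al X l := Nat.cast_nonneg _
  have hlogn : 0 ≤ Real.log ((n : ℝ) + 2) / n := by
    apply div_nonneg (Real.log_nonneg _) (Nat.cast_nonneg _)
    have : (0 : ℝ) ≤ n := Nat.cast_nonneg _
    linarith
  have he0 := er_nonneg b j e l
  have he : (L : ℝ) * er b j e l ≤ c * Real.log (n + 2) / n := by
    have h1 := log_le hm₀ hl hn
    have h2 : (L : ℝ) * er b j e l = (L * j * (b : ℝ) ^ (2 * j) * e) * (Real.log (l + 2) / l) := by
      unfold er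
      rw [← pow_mul]
      ring
    rw [h2]
    have h3 : (0 : ℝ) ≤ L * j * (b : ℝ) ^ (2 * j) * e := by positivity
    have h4 : (5 : ℝ) * L * j * (b : ℝ) ^ (2 * j) * e ≤ c := by exact_mod_cast hc
    calc (L * j * (b : ℝ) ^ (2 * j) * e) * (Real.log (l + 2) / l) ≤
        (L * j * (b : ℝ) ^ (2 * j) * e) * (5 * (Real.log (n + 2) / n)) :=
          mul_le_mul_of_nonneg_left h1 h3
      _ = (5 * L * j * (b : ℝ) ^ (2 * j) * e) * (Real.log (n + 2) / n) := by ring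
      _ ≤ c * (Real.log (n + 2) / n) := mul_le_mul_of_nonneg_right h4 hlogn
      _ = _ := by ring
  rcases le_or_gt ((L : ℝ) - c * Real.log (n + 2) / n) 0 with h0 | h0
  · exact (mul_nonpos_of_nonpos_of_nonneg h0 (Nat.cast_nonneg _)).trans (Nat.cast_nonneg _)
  · have h5 : ((L : ℝ) - c * Real.log (n + 2) / n) * (b : ℝ) ^ (m₀ + 1) ≤
        L * ((b : ℝ) ^ (m₀ + 1) - er b j e l) := by
      have h6 : (L : ℝ) * er b j e l ≤ (L * er b j e l) * (b : ℝ) ^ (m₀ + 1) :=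
        le_mul_of_one_le_right (mul_nonneg hL he0) hb2
      have h7 : ((L : ℝ) * er b j e l) * (b : ℝ) ^ (m₀ + 1) ≤
          (c * Real.log (n + 2) / n) * (b : ℝ) ^ (m₀ + 1) :=
        mul_le_mul_of_nonneg_right he (by linarith)
      linarith
    calc ((L : ℝ) - c * Real.log (n + 2) / n) * S.a (pw X n)
        ≤ ((L : ℝ) - c * Real.log (n + 2) / n) * ((b : ℝ) ^ (m₀ + 1) * S.al X l) :=
          mul_le_mul_of_nonneg_left ha h0.le
      _ = (((L : ℝ) - c * Real.log (n + 2) / n) * (b : ℝ) ^ (m₀ + 1)) * S.al X l := by ring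
      _ ≤ (L * ((b : ℝ) ^ (m₀ + 1) - er b j e l)) * S.al X l := mul_le_mul_of_nonneg_right h5 hal
      _ ≤ t := h

/-- If the rank of the intersection form does not grow like the cohomology, it is small in comparison
with the number of classes. -/
theorem small (hX : 0 < finrank W.K (W.H X)) {L m₀ l n : ℕ} (hm₀ : m₀ ≤ 1)
    (hn : n = m₀ + (l + l + 1) + 1)
    (h : S.al X l * (l + 2) ^ ((L + 1) * finrank W.K (W.H X) ^ 2) <
      (finrank W.K (W.H X) ^ 2) ^ (l + 1)) :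
    L * S.a (pw X n) ≤ finrank W.K (T.C (pw X n)) := by
  set b := finrank W.K (W.H X) with hb
  have h1 := T.growth X l
  rw [← hb, pow_mul] at h1
  have h2 : S.al X l * (l + 2) ^ (L * b ^ 2) <
      finrank W.K (T.C ((pw X l).prod (pw X l))) := by
    have h3 : (L + 1) * b ^ 2 = L * b ^ 2 + b ^ 2 := by ring
    rw [h3, pow_add, ← mul_assoc] at h
    exact lt_of_mul_lt_mul_right (h.trans_le h1) (Nat.zero_le _)
  have h3 : finrank W.K (T.C ((pw X l).prod (pw X l))) ≤ finrank W.K (T.C (pw X n)) := by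
    rw [← C_eq T hn]
    refine T.finrank_C_le (snd (pw X m₀) ((pw X l).prod (pw X l))) ?_
    have h4 : Nontrivial (W.H (pw X m₀)) := by
      apply Module.nontrivial_of_finrank_pos (R := W.K)
      rw [finrank_pw]
      exact Nat.pow_pos hX
    intro x y hxy
    have h5 : xp W (1 : W.H (pw X m₀)) (x - y) = 0 := by
      rw [xp_def, map_one, one_mul, map_sub, hxy, sub_self]
    exact sub_eq_zero.1 (xp_eq_zero_left one_ne_zero h5)
  have h4 : S.a (pw X n) ≤ b ^ (m₀ + 1) * S.al X l := a_up hn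
  have hb1 : 1 ≤ b := hX
  have h5 : b ^ (m₀ + 1) ≤ b ^ 2 := Nat.pow_le_pow_right hb1 (by omega)
  have h6 : L * b ^ 2 ≤ (l + 2) ^ (L * b ^ 2) := by
    have h7 : L * b ^ 2 < 2 ^ (L * b ^ 2) := Nat.lt_two_pow_self
    exact h7.le.trans (Nat.pow_le_pow_left (by omega) _)
  calc L * S.a (pw X n) ≤ L * (b ^ (m₀ + 1) * S.al X l) := Nat.mul_le_mul_left _ h4
    _ ≤ L * (b ^ 2 * S.al X l) := Nat.mul_le_mul_left _ (Nat.mul_le_mul_right _ h5)
    _ = S.al X l * (L * b ^ 2) := by ring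
    _ ≤ S.al X l * (l + 2) ^ (L * b ^ 2) := Nat.mul_le_mul_left _ h6
    _ ≤ _ := h2.le.trans h3

end Pool.Agent.P8H28.DL
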